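import Mathlib
import Pool.Agent.R352.CH.A
import Pool.Agent.Results.MP_181555_al.CubesAllRanks
import Pool.Agent.Results.MP_181555_al.SquaresOfTransvections

set_option autoImplicit false

/-! Representations of `Aut(F_n)` and `Out(F_n)` of quadratic dimension in characteristic two and
of cubic dimension in characteristic three have finite image and satisfy the congruence
property. -/

namespace Pool.Agent.Results.MP_181555_al.CharacteristicTwoThree

open Pool.Agent.R352.CH Pool.Agent.R352.MG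

universe u

/-- `τ` is a transvection: `x i ↦ x i * x j` for some `i ≠ j`, the other generators are fixed. -/
def IsTransvection {n : ℕ} (τ : MulAut (FreeGroup (Fin n))) : Prop :=
  ∃ i j : Fin n, i ≠ j ∧ τ (FreeGroup.of i) = FreeGroup.of i * FreeGroup.of j ∧
    ∀ k, k ≠ i → τ (FreeGroup.of k) = FreeGroup.of k

/-- `ψ` acts trivially on `F_n / C`. -/
def TrivialMod {n : ℕ} (C : Subgroup (FreeGroup (Fin n))) (ψ : MulAut (FreeGroup (Fin n))) :
    Prop :=
  ∀ x : FreeGroup (Fin n), ψ x * x⁻¹ ∈ C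

/-- `ψ` acts on `F_n / C` as an inner automorphism. -/
def InnerMod {n : ℕ} (C : Subgroup (FreeGroup (Fin n))) (ψ : MulAut (FreeGroup (Fin n))) : Prop :=
  ∃ g : FreeGroup (Fin n), ∀ x : FreeGroup (Fin n), ψ x * (g * x * g⁻¹)⁻¹ ∈ C

/-- the normal subgroup `N` of `Aut(F_n)` has finite index and is a congruence subgroup with
respect to `C`; if it contains the inner automorphisms, then also in `Out(F_n)` -/
def CongruenceFor {n : ℕ} (C : Subgroup (FreeGroup (Fin n)))
    (N : Subgroup (MulAut (FreeGroup (Fin n)))) : Prop :=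
  N.FiniteIndex ∧ (∀ ψ, TrivialMod C ψ → ψ ∈ N) ∧
    ((∀ g : FreeGroup (Fin n), MulAut.conj g ∈ N) → ∀ ψ, InnerMod C ψ → ψ ∈ N)

theorem exists_transvection {n : ℕ} (hn : 2 ≤ n) :
    ∃ τ : MulAut (FreeGroup (Fin n)), IsTransvection τ := by
  have hne : (⟨0, by omega⟩ : Fin n) ≠ ⟨1, by omega⟩ := by
    intro h
    have := congrArg Fin.val h
    simp at this
  exact ⟨Pool.Agent.TH35.CH.trR _ _ hne, _, _, hne.symm, Pool.Agent.TH35.CH.trR_self _ _ hne,
    fun k hk => Pool.Agent.TH35.CH.trR_ne _ _ hne hk⟩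

/-- (1) Let `1 ≤ k`, `k + 5 ≤ n / 2` and `d < binom (n / 2 - 5) k`, and let `5 k + 5 ≤ n / 2` or
`d < 2 ^ (n / 2 - 4 - k)`. Then `(f(τ) - 1) ^ k = 0` for every representation `f` of `Aut(F_n)` of
dimension `d` over a field and every transvection `τ`; if the field has characteristic `p` and
`k ≤ p ^ r`, then `f(τ) ^ (p ^ r) = 1`.
(2) For every `n` there is a characteristic subgroup `C` of finite index in `F_n` such that for
every field `K` of characteristic two and every `d < binom (n / 2 - 5) 2` every homomorphism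
`f : Aut(F_n) → GL_d(K)` has finite image and its kernel is a congruence subgroup with respect to
`C`.
(3) The same in characteristic three for `n ≥ 26` and `d < binom (n / 2 - 5) 3`. -/
theorem result :
    (∀ n k d : ℕ, 1 ≤ k → k + 5 ≤ n / 2 → d < (n / 2 - 5).choose k →
      (5 * k + 5 ≤ n / 2 ∨ d < 2 ^ (n / 2 - 4 - k)) → ∀ (K : Type u) [Field K]
      (f : MulAut (FreeGroup (Fin n)) →* Matrix.GeneralLinearGroup (Fin d) K)
      (τ : MulAut (FreeGroup (Fin n))), IsTransvection τ →
        ((f τ : Matrix (Fin d) (Fin d) K) - 1) ^ k = 0 ∧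
        ∀ p r : ℕ, p.Prime → CharP K p → k ≤ p ^ r → f τ ^ (p ^ r) = 1) ∧
    (∀ n : ℕ, ∃ C : Subgroup (FreeGroup (Fin n)), C.Characteristic ∧ C.FiniteIndex ∧
      ∀ d : ℕ, d < (n / 2 - 5).choose 2 → ∀ (K : Type u) [Field K] [CharP K 2]
        (f : MulAut (FreeGroup (Fin n)) →* Matrix.GeneralLinearGroup (Fin d) K),
        CongruenceFor C f.ker) ∧
    (∀ n : ℕ, 26 ≤ n → ∃ C : Subgroup (FreeGroup (Fin n)), C.Characteristic ∧ C.FiniteIndex ∧
      ∀ d : ℕ, d < (n / 2 - 5).choose 3 → ∀ (K : Type u) [Field K] [CharP K 3]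
        (f : MulAut (FreeGroup (Fin n)) →* Matrix.GeneralLinearGroup (Fin d) K),
        CongruenceFor C f.ker) := by
  refine ⟨?_, ?_, ?_⟩
  · intro n k d hk hkn hd hd' K _ f τ hτ
    have h2 : d < 2 ^ (n / 2 - 4 - k) := by
      rcases hd' with h | h
      · have h3 := choose_le_pow (M := n / 2 - 5) (k := k) (by omega)
        have h4 : 2 ^ (n / 2 - 5 - k) ≤ 2 ^ (n / 2 - 4 - k) :=
          Nat.pow_le_pow_right (by norm_num) (by omega)
        omega
      · exact h
    refine ⟨trv_nil hk hkn hd h2 K f hτ, ?_⟩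
    intro p r hp hK hkp
    have : Fact p.Prime := ⟨hp⟩
    rw [← map_pow]
    exact trv_char hk hkn hd h2 hkp K f hτ
  · intro n
    rcases Nat.lt_or_ge n 3 with hn | hn
    · refine ⟨⊤, Subgroup.characteristic_iff_le_comap.2 fun _ _ _ => trivial, inferInstance, ?_⟩
      intro d hd
      rw [show n / 2 - 5 = 0 by omega] at hd
      simp at hd
    · obtain ⟨h1, h2, h3⟩ := SquaresOfTransvections.result n hn
      refine ⟨_, h1, h2, ?_⟩
      intro d hd K _ _ f
      obtain ⟨τ, hτ⟩ := exists_transvection (n := n) (by omega)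
      have hM : 2 ≤ n / 2 - 5 := by
        by_contra hcon
        rw [Nat.choose_eq_zero_of_lt (by omega)] at hd
        omega
      have h5 : d < 2 ^ (n / 2 - 4 - 2) := by
        have := choose_two_le (M := n / 2 - 5) (by omega)
        rw [show n / 2 - 5 - 1 = n / 2 - 4 - 2 by omega] at this
        omega
      have : Fact (Nat.Prime 2) := ⟨Nat.prime_two⟩
      have h6 := trv_char (p := 2) (r := 1) (by omega) (by omega) hd h5 (by norm_num) K f hτ
      have h7 : τ * τ ∈ f.ker := by
        rw [MonoidHom.mem_ker, ← pow_two]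
        simpa using h6
      obtain ⟨h8, h9, h10⟩ := h3 f.ker inferInstance ⟨τ, hτ, h7⟩
      exact ⟨h8, h9, h10⟩
  · intro n hn
    obtain ⟨h1, h2, h3⟩ := CubesAllRanks.result n (by omega)
    refine ⟨_, h1, h2, ?_⟩
    intro d hd K _ _ f
    obtain ⟨τ, hτ⟩ := exists_transvection (n := n) (by omega)
    have h5 : d < 2 ^ (n / 2 - 4 - 3) := by
      have := choose_three_le (M := n / 2 - 5) (by omega)
      rw [show n / 2 - 5 - 2 = n / 2 - 4 - 3 by omega] at this
      omega
    have : Fact (Nat.Prime 3) := ⟨Nat.prime_three⟩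
    have h6 := trv_char (p := 3) (r := 1) (by omega) (by omega) hd h5 (by norm_num) K f hτ
    have h7 : τ * τ * τ ∈ f.ker := by
      rw [MonoidHom.mem_ker, ← pow_two, ← pow_succ]
      simpa using h6
    obtain ⟨h8, h9, h10⟩ := h3 f.ker inferInstance ⟨τ, hτ, h7⟩
    exact ⟨h8, h9, h10⟩

end Pool.Agent.Results.MP_181555_al.CharacteristicTwoThree
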