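import Pool.Agent.R387.TC.Step

/-!
# The congruence subgroup property on stabilisers of flags of free factors

Every finite quotient of `Out (F_n)`, restricted to the image of the group of the automorphisms
`x_i ↦ u_i x_i^{±1} v_i` with `u_i, v_i ∈ ⟨x_1, …, x_{i-1}⟩`, factors through `Out (F_n / K)` for a
characteristic subgroup `K` of finite index.  If the congruence subgroup property holds for
`Out (F_m)`, `m ≥ 2`, the same holds for the group of the automorphisms of `F_n` which preserve
`F_m`, act by arbitrary automorphisms on `F_m` and map `x_i` to `u_i x_i^{±1} v_i`,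
`u_i, v_i ∈ ⟨x_1, …, x_{i-1}⟩`, for `i > m`.
-/

set_option autoImplicit false

namespace Pool.Agent.Results.MP_181555_al.FlagStabilizers

open Pool.Agent.R387.TC

/-- `Flag m k` is the set of the automorphisms of the free group of rank `m + k` with free generators
`x_1, …, x_{m+k}` which map `F_i = ⟨x_1, …, x_i⟩` to itself (by an automorphism) and `x_{i+1}` to
`u x_{i+1} v` or `u x_{i+1}⁻¹ v` with `u, v ∈ F_i`, for all `i` with `m ≤ i < m + k`. -/
def Flag (m : ℕ) : (k : ℕ) → Set (MulAut (F (m + k)))
  | 0 => Set.univ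
  | k + 1 => step (Flag m k)

/-- The definition of `Flag`, written out: `inc` is the inclusion of the free group on the first
`m + k` generators and `tt` is the last generator. -/
theorem mem_flag_succ (m k : ℕ) (ψ : MulAut (F (m + (k + 1)))) :
    ψ ∈ Flag m (k + 1) ↔ ∃ σ ∈ Flag m k, (∀ x, ψ (inc (m + k) x) = inc (m + k) (σ x)) ∧
      ∃ u v : F (m + k), ψ (tt (m + k)) = inc (m + k) u * tt (m + k) * inc (m + k) v ∨
        ψ (tt (m + k)) = inc (m + k) u * (tt (m + k))⁻¹ * inc (m + k) v := Iff.rfl

theorem cong_flag {m : ℕ} (h : Cong m Set.univ) (k : ℕ) : Cong (m + k) (Flag m k) := by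
  induction k with
  | zero => exact h
  | succ k ih => exact cong_step ih

theorem norm_flag {m : ℕ} (hm : 1 ≤ m) (k : ℕ) :
    ∃ H, Norm (m + k) (Flag m k) H ∧ Stab (Flag m k) H := by
  induction k with
  | zero => exact ⟨⊤, norm_top _ _, fun _ _ _ _ => trivial⟩
  | succ k ih =>
    obtain ⟨H, h1, h2⟩ := ih
    exact ⟨H.map (inc (m + k)), norm_step (⟨0, by omega⟩ : Fin (m + k)) h1, stab_step h2⟩

instance : Subsingleton (F 0) := inferInstanceAs (Subsingleton (FreeGroup (Fin 0)))

theorem cong_zero : Cong 0 Set.univ := by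
  intro V _
  refine ⟨⊤, inferInstance, inferInstance, fun ψ _ _ => ?_⟩
  have : ψ = 1 := by ext x; exact Subsingleton.elim _ _
  rw [this]
  exact V.one_mem

theorem comm_one (h : F (0 + 1)) : h * tt 0 = tt 0 * h := by
  induction h using FreeGroup.induction_on with
  | C1 => simp
  | of i =>
    have : i = Fin.last 0 := Subsingleton.elim (α := Fin 1) _ _
    rw [this]
    rfl
  | inv_of i hi => rw [inv_mul_eq_iff_eq_mul, ← mul_assoc, hi, mul_inv_cancel_right]
  | mul x y hx hy => rw [mul_assoc, hy, ← mul_assoc, hx, mul_assoc]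

theorem stab_one : Stab (Flag 0 1) ⊤ := by
  rintro h _ ψ ⟨σ, -, -, u, v, h2⟩
  have hu : u = 1 := Subsingleton.elim (α := F 0) _ _
  have hv : v = 1 := Subsingleton.elim (α := F 0) _ _
  have hc : h * (tt 0) * h⁻¹ = tt 0 := by rw [comm_one, mul_inv_cancel_right]
  have hc' : h * (tt 0)⁻¹ * h⁻¹ = (tt 0)⁻¹ := by
    have := congrArg (·⁻¹) hc
    simpa [mul_assoc] using this
  refine ⟨1, trivial, fun x => ?_, 1, 1, ?_⟩
  · have hx : x = 1 := Subsingleton.elim (α := F 0) _ _
    rw [hx]
    simp
  · rw [hu, hv] at h2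
    simp only [map_one, one_mul, mul_one, MulAut.mul_apply, MulAut.conj_apply] at h2 ⊢
    rcases h2 with h2 | h2
    · left
      exact (congrArg (fun z => h * z * h⁻¹) h2).trans hc
    · right
      exact (congrArg (fun z => h * z * h⁻¹) h2).trans hc'

theorem norm_flag_zero (k : ℕ) :
    ∃ H, Norm (0 + (k + 1)) (Flag 0 (k + 1)) H ∧ Stab (Flag 0 (k + 1)) H := by
  induction k with
  | zero => exact ⟨⊤, norm_top _ _, stab_one⟩
  | succ k ih =>
    obtain ⟨H, h1, h2⟩ := ih
    exact ⟨H.map (inc (0 + (k + 1))), norm_step (⟨0, by omega⟩ : Fin (0 + (k + 1))) h1, stab_step h2⟩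

/-- (1) Every subgroup of finite index of `Aut (F_k)` (normal subgroup of finite index of
`Out (F_k)`) contains the elements of `Flag 0 k` acting trivially (as an inner automorphism) on
`F_k / K` for some characteristic subgroup `K` of finite index. (2) If `m ≥ 2` and all normal
subgroups of finite index of `Out (F_m)` are congruence subgroups then the same holds for
`Flag m k`, a subset of `Aut (F_{m+k})`. -/
theorem result :
    (∀ k : ℕ, Cong (0 + k) (Flag 0 k) ∧ OutCong (0 + k) (Flag 0 k)) ∧
    (∀ m : ℕ, 2 ≤ m → OutCong m Set.univ →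
      ∀ k : ℕ, Cong (m + k) (Flag m k) ∧ OutCong (m + k) (Flag m k)) := by
  constructor
  · intro k
    refine ⟨cong_flag cong_zero k, ?_⟩
    cases k with
    | zero => exact out_of_norm cong_zero (norm_top _ _) (fun _ _ _ _ => trivial)
    | succ k =>
      obtain ⟨H, h1, h2⟩ := norm_flag_zero k
      exact out_of_norm (cong_flag cong_zero (k + 1)) h1 h2
  · intro m hm h k
    obtain ⟨n, rfl⟩ : ∃ n, m = n + 1 := ⟨m - 1, by omega⟩
    have hc : Cong (n + 1) Set.univ := cong_of_out (⟨0, by omega⟩ : Fin n) h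
    refine ⟨cong_flag hc k, ?_⟩
    obtain ⟨H, h1, h2⟩ := norm_flag (by omega : 1 ≤ n + 1) k
    exact out_of_norm (cong_flag hc k) h1 h2

end Pool.Agent.Results.MP_181555_al.FlagStabilizers
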