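import Pool.Agent.R569.CS.Main

/-!
# Finite quotients of `Out (F_n)` and virtually nilpotent quotients of `F_n`

Let `F` be the free group of rank `n ≥ 3`, and let `Γ` be a characteristic subgroup of finite index
of `F`, with the lower central series `Γ = γ_1 Γ ≥ γ_2 Γ = [Γ, Γ] ≥ ...` (in Mathlib
`Γ.lowerCentralSeries c = γ_{c+1} Γ`). Let `IAut Γ` be the group of the automorphisms of `F` which
induce the identity on `F / Γ` and on `Γ / [Γ, Γ]`; for `Γ = F` it is `IA_n`.

(1) Every subgroup of finite index of `IAut Γ` which contains the automorphisms in `IAut Γ` acting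
trivially on `F / γ_{c+1} Γ`, for some `c`, contains the automorphisms in `IAut Γ` acting trivially
on `F / K` for some characteristic subgroup `K` of finite index of `F`.

(2) Suppose that every subgroup of finite index of `Aut (F)` which contains `IAut Γ` contains the
automorphisms acting trivially on `F / K` for some characteristic `K` of finite index. This is a
property of the arithmetic action of `Aut (F)` on `F / Γ` and on the free abelian group
`Γ / [Γ, Γ]`; for `Γ = F` it holds by the theorem of Bass, Lazard, Serre and Mennicke on `SL_n(ℤ)`,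
`n ≥ 3`. Then every finite quotient of `Out (F)` which factors through the image of `Out (F)` in
`Out (F / γ_{c+1} Γ)`, for some `c`, factors through `Out (F) → Out (F / K)` for some characteristic
subgroup `K` of finite index.

For `Γ = F` the kernels in (2) are the terms of the Andreadakis-Johnson filtration. A subgroup `R`
with `F / R` virtually nilpotent contains some `γ_{c+1} Γ`, so (2) for all `Γ` reduces the question
for all virtually nilpotent quotients of `F` to the linear actions on the groups `Γ / [Γ, Γ]`.

Proof. Let `T_i` be the group of the elements of `Aut (F)` acting trivially on `F / γ_i Γ` and on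
`γ_i Γ / γ_{i+1} Γ`. The map `u ↦ (u(x) x⁻¹)`, `x` in a finite set of generators, is a homomorphism
of `T_i` to a power of the centre `C` of the finitely generated nilpotent group `Γ / γ_{i+1} Γ`,
and the kernel is the group `S_{i+1}` of the elements acting trivially on `F / γ_{i+1} Γ`. We have
`S_i = T_i` for `i ≥ 2`. Let `V` be a subgroup of finite index which contains `S_{i+1}`. As `C` is
finitely generated, there is an `m` such that all `u` in `T_i` with `m`-th powers in `C` as values
are in `V`, and by the residual finiteness of nilpotent groups there is `K` such that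
`K ∩ γ_i Γ` is contained in these `m`-th powers. So the elements of `T_i` acting trivially on
`F / K` are in `V`. Now the property for `(V ∩ V_K) T_i`, `V_K` the automorphisms acting trivially
on `F / K`, implies the property for `V`.
-/

set_option autoImplicit false

namespace Pool.Agent.Results.MP_181555_al.VirtuallyNilpotentQuotients

/-- The group of the automorphisms of `F` inducing the identity on `F / Γ` and on `Γ / [Γ, Γ]`. -/
def IAut {F : Type} [Group F] (Γ : Subgroup F) [Γ.Normal] : Subgroup (MulAut F) :=
  R569.CS.lay (MonoidHom.id (MulAut F)) Γ ⁅Γ, Γ⁆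

/-- The definition of `IAut`, written out. -/
theorem mem_IAut {F : Type} [Group F] (Γ : Subgroup F) [Γ.Normal] (φ : MulAut F) :
    φ ∈ IAut Γ ↔ (∀ x, φ x * x⁻¹ ∈ Γ) ∧ ∀ x ∈ Γ, φ x * x⁻¹ ∈ ⁅Γ, Γ⁆ := Iff.rfl

/-- Let `F` be the free group of rank `n ≥ 3` and `Γ` a characteristic subgroup of finite index.
(1) The subgroups of finite index of `IAut Γ` containing the elements acting trivially on
`F / γ_{c+1} Γ` contain the elements acting trivially on `F / K` for some characteristic subgroup
`K` of finite index. (2) If all subgroups of finite index of `Aut (F)` containing `IAut Γ` contain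
the elements acting trivially on some `F / K`, then every normal subgroup of finite index of
`Out (F)` containing the kernel of the action on `F / γ_{c+1} Γ` contains the kernel of
`Out (F) → Out (F / K)` for some characteristic subgroup `K` of finite index. -/
theorem result (n : ℕ) (_ : 3 ≤ n) (Γ : Subgroup (FreeGroup (Fin n))) [Γ.Characteristic]
    [Γ.FiniteIndex] :
    (∀ (c : ℕ) (V : Subgroup (IAut Γ)), V.FiniteIndex →
      (∀ a : IAut Γ, (∀ x, a.1 x * x⁻¹ ∈ Γ.lowerCentralSeries c) → a ∈ V) →
      ∃ K : Subgroup (FreeGroup (Fin n)), K.Characteristic ∧ K.FiniteIndex ∧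
        ∀ a : IAut Γ, (∀ x, a.1 x * x⁻¹ ∈ K) → a ∈ V) ∧
    ((∀ V : Subgroup (MulAut (FreeGroup (Fin n))), V.FiniteIndex → IAut Γ ≤ V →
        ∃ K : Subgroup (FreeGroup (Fin n)), K.Characteristic ∧ K.FiniteIndex ∧
          ∀ φ : MulAut (FreeGroup (Fin n)), (∀ x, φ x * x⁻¹ ∈ K) → φ ∈ V) →
      ∀ (c : ℕ) (N : Subgroup (MulAut (FreeGroup (Fin n)))), N.FiniteIndex → N.Normal →
        (∀ x, MulAut.conj x ∈ N) →
        (∀ φ : MulAut (FreeGroup (Fin n)),
          (∃ g, ∀ x, φ x * (g * x * g⁻¹)⁻¹ ∈ Γ.lowerCentralSeries c) → φ ∈ N) →
        ∃ K : Subgroup (FreeGroup (Fin n)), K.Characteristic ∧ K.FiniteIndex ∧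
          ∀ φ : MulAut (FreeGroup (Fin n)),
            (∃ g, ∀ x, φ x * (g * x * g⁻¹)⁻¹ ∈ K) → φ ∈ N) := by
  refine ⟨fun c V hV h => R569.CS.torelli_csp Γ c V hV h, fun hyp c H hH _ hinn hc => ?_⟩
  refine R569.CS.outer_csp Γ (fun V hV h => ?_) c H hH hinn hc
  exact hyp V hV (fun φ hφ => h φ hφ.1 hφ.2)

end Pool.Agent.Results.MP_181555_al.VirtuallyNilpotentQuotients
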